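import Mathlib

/-!
# Smooth functions which are locally algebraic form a quasianalytic class
-/

namespace Pool.Agent.X223.WAL

open Filter Topology Polynomial

/-- properties of `x ↦ P(x, g x)` by induction on `P` -/
lemma evalEval_ind (S : (ℝ → ℝ) → Prop) (g : ℝ → ℝ) (hconst : ∀ c : ℝ, S (fun _ => c))
    (hid : S (fun x => x)) (hg : S g) (hadd : ∀ u v, S u → S v → S (fun x => u x + v x))
    (hmul : ∀ u v, S u → S v → S (fun x => u x * v x)) (P : Polynomial (Polynomial ℝ)) :
    S (fun x => P.evalEval x (g x)) := by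
  have h1 : ∀ a : Polynomial ℝ, S (fun x => a.eval x) := by
    intro a
    induction a using Polynomial.induction_on' with
    | add p q hp hq =>
      have : (fun x => (p + q).eval x) = fun x => p.eval x + q.eval x := by
        funext x; simp
      rw [this]; exact hadd _ _ hp hq
    | monomial n c =>
      induction n with
      | zero =>
        have : (fun x => (Polynomial.monomial 0 c).eval x) = fun _ => c := by
          funext x; simp
        rw [this]; exact hconst c
      | succ n ih =>
        have : (fun x => (Polynomial.monomial (n + 1) c).eval x) =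
            fun x => (Polynomial.monomial n c).eval x * x := by
          funext x; simp [pow_succ, mul_assoc]
        rw [this]; exact hmul _ _ ih hid
  induction P using Polynomial.induction_on' with
  | add p q hp hq =>
    have : (fun x => (p + q).evalEval x (g x)) =
        fun x => p.evalEval x (g x) + q.evalEval x (g x) := by
      funext x; simp [Polynomial.evalEval]
    rw [this]; exact hadd _ _ hp hq
  | monomial n a =>
    induction n with
    | zero =>
      have : (fun x => (Polynomial.monomial 0 a).evalEval x (g x)) = fun x => a.eval x := by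
        funext x; simp [Polynomial.evalEval]
      rw [this]; exact h1 a
    | succ n ih =>
      have : (fun x => (Polynomial.monomial (n + 1) a).evalEval x (g x)) =
          fun x => (Polynomial.monomial n a).evalEval x (g x) * g x := by
        funext x; simp [Polynomial.evalEval, pow_succ, mul_assoc]
      rw [this]; exact hmul _ _ ih hg

lemma continuous_comp_evalEval {g : ℝ → ℝ} (hg : Continuous g) (P : Polynomial (Polynomial ℝ)) :
    Continuous (fun x => P.evalEval x (g x)) :=
  evalEval_ind Continuous g (fun _ => continuous_const) continuous_id hg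
    (fun _ _ hu hv => hu.add hv) (fun _ _ hu hv => hu.mul hv) P

/-- smooth -/
def Smooth (f : ℝ → ℝ) : Prop := ∀ n : ℕ, ContDiff ℝ n f

lemma smooth_comp_evalEval {g : ℝ → ℝ} (hg : Smooth g) (P : Polynomial (Polynomial ℝ)) :
    Smooth (fun x => P.evalEval x (g x)) := fun n =>
  evalEval_ind (fun u => ContDiff ℝ n u) g (fun _ => contDiff_const) contDiff_id (hg n)
    (fun _ _ hu hv => hu.add hv) (fun _ _ hu hv => hu.mul hv) P

lemma Smooth.deriv {g : ℝ → ℝ} (hg : Smooth g) : Smooth (deriv g) := fun n => by
  have := hg (n + 1)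
  have h2 : ContDiff ℝ ((n : WithTop ℕ∞) + 1) g := by exact_mod_cast this
  exact (contDiff_succ_iff_deriv.1 h2).2.2

lemma Smooth.continuous {g : ℝ → ℝ} (hg : Smooth g) : Continuous g := (hg 0).continuous

lemma Smooth.differentiable {g : ℝ → ℝ} (hg : Smooth g) : Differentiable ℝ g :=
  (hg 1).differentiable (by simp)

/-- flatness at a limit of open sets on which the function vanishes -/
lemma flat (x0 : ℝ) (n : ℕ) : ∀ g : ℝ → ℝ, Smooth g →
    (∃ᶠ y in 𝓝 x0, ∀ᶠ z in 𝓝 y, g z = 0) →
    ∃ C : ℝ, 0 ≤ C ∧ ∀ᶠ x in 𝓝 x0, |g x| ≤ C * |x - x0| ^ n := by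
  induction n with
  | zero =>
    intro g hg _
    refine ⟨|g x0| + 1, by positivity, ?_⟩
    have hc : ContinuousAt (fun x => |g x|) x0 := (hg.continuous.abs).continuousAt
    have := hc.eventually (gt_mem_nhds (lt_add_one (|g x0|)))
    filter_upwards [this] with x hx
    simpa using hx.le
  | succ n ih =>
    intro g hg hfr
    have hz : g x0 = 0 := by
      by_contra hne
      have : ∀ᶠ y in 𝓝 x0, g y ≠ 0 := hg.continuous.continuousAt.eventually_ne hne
      obtain ⟨y, hy1, hy2⟩ := (hfr.and_eventually this).exists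
      exact hy2 hy1.self_of_nhds
    have hfr' : ∃ᶠ y in 𝓝 x0, ∀ᶠ z in 𝓝 y, deriv g z = 0 := by
      refine hfr.mono fun y hy => ?_
      filter_upwards [hy.eventually_nhds] with z hz
      have : g =ᶠ[𝓝 z] fun _ => (0 : ℝ) := hz
      rw [this.deriv_eq]
      simp
    obtain ⟨C, hC, hev⟩ := ih (deriv g) hg.deriv hfr'
    refine ⟨C, hC, ?_⟩
    obtain ⟨ε, hε, hball⟩ := Metric.eventually_nhds_iff_ball.1 hev
    filter_upwards [Metric.ball_mem_nhds x0 hε] with x hx
    have hr : |x - x0| < ε := by simpa [Real.dist_eq] using hx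
    have key := (convex_closedBall x0 |x - x0|).norm_image_sub_le_of_norm_deriv_le
      (f := g) (C := C * |x - x0| ^ n) (x := x0) (y := x)
      (fun z _ => hg.differentiable z) (fun z hz => ?_)
      (Metric.mem_closedBall_self (abs_nonneg _)) (by simp [Real.dist_eq])
    · rw [hz, sub_zero] at key
      simp only [Real.norm_eq_abs] at key
      rw [pow_succ, ← mul_assoc]
      exact key
    · have hz' : |z - x0| ≤ |x - x0| := by simpa [Real.dist_eq] using hz
      have h1 := hball z (by simpa [Real.dist_eq] using lt_of_le_of_lt hz' hr)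
      rw [Real.norm_eq_abs]
      refine h1.trans ?_
      gcongr

/-- **Quasianalyticity**: a smooth function, locally a root of a nonzero polynomial, which vanishes
near a point vanishes identically. -/
theorem quasianalytic (h : ℝ → ℝ) (hs : Smooth h)
    (loc : ∀ x0 : ℝ, ∃ P : Polynomial (Polynomial ℝ), P ≠ 0 ∧
      ∀ᶠ x in 𝓝 x0, P.evalEval x (h x) = 0)
    (a : ℝ) (ha : ∀ᶠ x in 𝓝 a, h x = 0) : ∀ x, h x = 0 := by
  set U : Set ℝ := {x | ∀ᶠ y in 𝓝 x, h y = 0} with hU
  have hopen : IsOpen U := isOpen_setOfPred_eventually_nhds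
  have hclosed : IsClosed U := by
    refine isClosed_of_closure_subset fun x0 hx0 => ?_
    have hfr : ∃ᶠ y in 𝓝 x0, ∀ᶠ z in 𝓝 y, h z = 0 := by
      rw [mem_closure_iff_frequently] at hx0
      exact hx0
    have hz : h x0 = 0 := by
      by_contra hne
      have : ∀ᶠ y in 𝓝 x0, h y ≠ 0 := hs.continuous.continuousAt.eventually_ne hne
      obtain ⟨y, hy1, hy2⟩ := (hfr.and_eventually this).exists
      exact hy2 hy1.self_of_nhds
    obtain ⟨P, hP, hPev⟩ := loc x0
    obtain ⟨Q, hQ, hQd⟩ := Polynomial.exists_eq_pow_rootMultiplicity_mul_and_not_dvd P hP 0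
    set m := P.rootMultiplicity 0 with hm
    have hq0 : Q.coeff 0 ≠ 0 := by
      intro h0
      apply hQd
      rw [Polynomial.dvd_iff_isRoot, Polynomial.IsRoot, ← Polynomial.coeff_zero_eq_eval_zero, h0]
    obtain ⟨r, hr, hrd⟩ := Polynomial.exists_eq_pow_rootMultiplicity_mul_and_not_dvd (Q.coeff 0) hq0 x0
    set d := (Q.coeff 0).rootMultiplicity x0 with hd
    have hr0 : r.eval x0 ≠ 0 := by
      intro h0
      apply hrd
      rw [Polynomial.dvd_iff_isRoot, Polynomial.IsRoot, h0]
    obtain ⟨C, hC, hflat⟩ := flat x0 (d + 1) h hs hfr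
    have hcont : Continuous (fun x => (Polynomial.divX Q).evalEval x (h x)) :=
      continuous_comp_evalEval hs.continuous _
    obtain ⟨K, hK, hKb⟩ : ∃ K : ℝ, 0 ≤ K ∧ ∀ᶠ x in 𝓝 x0,
        |(Polynomial.divX Q).evalEval x (h x)| ≤ K := by
      refine ⟨|(Polynomial.divX Q).evalEval x0 (h x0)| + 1, by positivity, ?_⟩
      have := hcont.abs.continuousAt.eventually
        (gt_mem_nhds (lt_add_one (|(Polynomial.divX Q).evalEval x0 (h x0)|)))
      filter_upwards [this] with x hx using hx.le
    have hlast : ∀ᶠ x in 𝓝 x0, K * C * |x - x0| < |r.eval x| := by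
      have c1 : Continuous (fun x => |r.eval x| - K * C * |x - x0|) := by
        have := r.continuous
        fun_prop
      have h0 : 0 < |r.eval x0| - K * C * |x0 - x0| := by
        simpa using hr0
      have := c1.continuousAt.eventually (lt_mem_nhds h0)
      filter_upwards [this] with x hx
      linarith
    show ∀ᶠ y in 𝓝 x0, h y = 0
    filter_upwards [hPev, hflat, hKb, hlast] with x h1 h2 h3 h4
    by_contra hne
    have hxne : x ≠ x0 := fun e => hne (e ▸ hz)
    have hxpos : 0 < |x - x0| := abs_pos.2 (sub_ne_zero.2 hxne)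
    have hQz : Q.evalEval x (h x) = 0 := by
      rw [hQ] at h1
      simp only [Polynomial.evalEval, Polynomial.eval_mul, Polynomial.eval_pow, Polynomial.eval_sub,
        Polynomial.eval_X, Polynomial.eval_C, Polynomial.C_0, sub_zero, map_zero] at h1
      rcases mul_eq_zero.1 h1 with h | h
      · exact absurd (eq_zero_of_pow_eq_zero h) hne
      · exact h
    have hdec : Q.evalEval x (h x) = (Polynomial.divX Q).evalEval x (h x) * h x
        + (Q.coeff 0).eval x := by
      conv_lhs => rw [← Polynomial.divX_mul_X_add Q]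
      simp [Polynomial.evalEval]
    have hq : (Q.coeff 0).eval x = (x - x0) ^ d * r.eval x := by
      rw [hr]; simp
    have e1 : |(x - x0) ^ d * r.eval x| = |(Polynomial.divX Q).evalEval x (h x)| * |h x| := by
      rw [← hq, ← abs_mul]
      have : (Q.coeff 0).eval x = - ((Polynomial.divX Q).evalEval x (h x) * h x) := by linarith
      rw [this, abs_neg]
    rw [abs_mul, abs_pow] at e1
    have e2 : |x - x0| ^ d * |r.eval x| ≤ |x - x0| ^ d * (K * C * |x - x0|) := by
      rw [e1]
      calc |(Polynomial.divX Q).evalEval x (h x)| * |h x| ≤ K * (C * |x - x0| ^ (d + 1)) := by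
            gcongr
        _ = |x - x0| ^ d * (K * C * |x - x0|) := by ring
    have e3 := le_of_mul_le_mul_left e2 (pow_pos hxpos d)
    linarith
  have huniv : U = Set.univ := IsClopen.eq_univ ⟨hclosed, hopen⟩ ⟨a, ha⟩
  intro x
  have hx : x ∈ U := huniv ▸ Set.mem_univ x
  have hx' : ∀ᶠ y in 𝓝 x, h y = 0 := hx
  exact hx'.self_of_nhds

end Pool.Agent.X223.WAL
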