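import Mathlib
import Pool.Agent.H581R2.QE

/-!
# Semialgebraic sets with real parameters
-/

namespace Pool.Agent.X223.WAL

open Pool.Agent.H581R2 MvPolynomial Filter Topology

variable {ι κ : Type}

/-- polynomial functions with real coefficients -/
def PFR (f : (κ → ℝ) → ℝ) : Prop :=
  ∃ g : (ℝ ⊕ κ → ℝ) → ℝ, PF g ∧ ∀ w, f w = g (Sum.elim id w)

/-- semialgebraic predicates with real parameters -/
def RS (r : (κ → ℝ) → Prop) : Prop :=
  ∃ q : (ℝ ⊕ κ → ℝ) → Prop, SAP q ∧ ∀ w, r w ↔ q (Sum.elim id w)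

lemma PFR.const (c : ℝ) : PFR (fun _ : κ → ℝ => c) :=
  ⟨fun v => v (Sum.inl c), PF.coord _, fun _ => rfl⟩

lemma PFR.coord (i : κ) : PFR (fun w : κ → ℝ => w i) :=
  ⟨fun v => v (Sum.inr i), PF.coord _, fun _ => rfl⟩

lemma PFR.add {f g : (κ → ℝ) → ℝ} (hf : PFR f) (hg : PFR g) : PFR (fun v => f v + g v) := by
  obtain ⟨p, hp, hp'⟩ := hf
  obtain ⟨q, hq, hq'⟩ := hg
  exact ⟨_, hp.add hq, fun w => by simp only [hp', hq']⟩

lemma PFR.sub {f g : (κ → ℝ) → ℝ} (hf : PFR f) (hg : PFR g) : PFR (fun v => f v - g v) := by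
  obtain ⟨p, hp, hp'⟩ := hf
  obtain ⟨q, hq, hq'⟩ := hg
  exact ⟨_, hp.sub hq, fun w => by simp only [hp', hq']⟩

lemma PFR.mul {f g : (κ → ℝ) → ℝ} (hf : PFR f) (hg : PFR g) : PFR (fun v => f v * g v) := by
  obtain ⟨p, hp, hp'⟩ := hf
  obtain ⟨q, hq, hq'⟩ := hg
  exact ⟨_, hp.mul hq, fun w => by simp only [hp', hq']⟩

lemma RS.congr {p q : (κ → ℝ) → Prop} (hp : RS p) (h : ∀ v, q v ↔ p v) : RS q := by
  obtain ⟨r, hr, hr'⟩ := hp
  exact ⟨r, hr, fun w => (h w).trans (hr' w)⟩

lemma RS.and {p q : (κ → ℝ) → Prop} (hp : RS p) (hq : RS q) : RS (fun v => p v ∧ q v) := by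
  obtain ⟨r, hr, hr'⟩ := hp
  obtain ⟨s, hs, hs'⟩ := hq
  exact ⟨_, hr.and hs, fun w => by simp only [hr', hs']⟩

lemma RS.or {p q : (κ → ℝ) → Prop} (hp : RS p) (hq : RS q) : RS (fun v => p v ∨ q v) := by
  obtain ⟨r, hr, hr'⟩ := hp
  obtain ⟨s, hs, hs'⟩ := hq
  exact ⟨_, hr.or hs, fun w => by simp only [hr', hs']⟩

lemma RS.not {p : (κ → ℝ) → Prop} (hp : RS p) : RS (fun v => ¬ p v) := by
  obtain ⟨r, hr, hr'⟩ := hp
  exact ⟨_, hr.not, fun w => by simp only [hr']⟩

lemma RS.constProp (P : Prop) : RS (fun _ : κ → ℝ => P) :=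
  ⟨_, SAP.const P, fun _ => Iff.rfl⟩

lemma RS.exists_mem {α : Type*} (s : Finset α) {p : α → (κ → ℝ) → Prop}
    (h : ∀ a ∈ s, RS (p a)) : RS (fun v => ∃ a ∈ s, p a v) := by
  classical
  induction s using Finset.induction_on with
  | empty => exact RS.congr (RS.constProp False) (by simp)
  | insert a s ha ih =>
    exact RS.congr ((h a (by simp)).or (ih fun b hb => h b (by simp [hb]))) (by simp)

lemma RS.lt {f g : (κ → ℝ) → ℝ} (hf : PFR f) (hg : PFR g) : RS (fun v => f v < g v) := by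
  obtain ⟨p, hp, hp'⟩ := hf
  obtain ⟨q, hq, hq'⟩ := hg
  exact ⟨_, SAP.lt hp hq, fun w => by simp only [hp', hq']⟩

lemma RS.le {f g : (κ → ℝ) → ℝ} (hf : PFR f) (hg : PFR g) : RS (fun v => f v ≤ g v) := by
  obtain ⟨p, hp, hp'⟩ := hf
  obtain ⟨q, hq, hq'⟩ := hg
  exact ⟨_, SAP.le hp hq, fun w => by simp only [hp', hq']⟩

lemma RS.eq {f g : (κ → ℝ) → ℝ} (hf : PFR f) (hg : PFR g) : RS (fun v => f v = g v) := by
  obtain ⟨p, hp, hp'⟩ := hf
  obtain ⟨q, hq, hq'⟩ := hg
  exact ⟨_, SAP.eq hp hq, fun w => by simp only [hp', hq']⟩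

/-- preimages under polynomial maps -/
lemma RS.preimage {p : (ι → ℝ) → Prop} (hp : RS p) {φ : (κ → ℝ) → ι → ℝ}
    (hφ : ∀ k, PFR (fun v => φ v k)) : RS (fun v => p (φ v)) := by
  obtain ⟨q, hq, hq'⟩ := hp
  choose g hg hg' using hφ
  refine ⟨fun u => q (Sum.elim (fun a => u (Sum.inl a)) (fun k => g k u)), ?_, fun w => ?_⟩
  · refine hq.preimage ?_
    rintro (a | k)
    · exact PF.coord _
    · exact hg k
  · beta_reduce
    rw [hq']
    have e : (Sum.elim id (φ w) : ℝ ⊕ ι → ℝ) = Sum.elim (fun a => (Sum.elim id w : ℝ ⊕ κ → ℝ) (Sum.inl a))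
        (fun k => g k (Sum.elim id w)) := by
      funext s
      rcases s with a | k
      · rfl
      · exact hg' k w
    rw [e]

/-- projections -/
lemma RS.exists_real {p : (Option κ → ℝ) → Prop} (hp : RS p) :
    RS (fun v : κ → ℝ => ∃ t, p (ext t v)) := by
  obtain ⟨q, hq, hq'⟩ := hp
  have h1 : SAP (fun u : Option (ℝ ⊕ κ) → ℝ => q (fun s => s.elim (fun a => u (some (Sum.inl a)))
      (fun o => o.elim (u none) (fun k => u (some (Sum.inr k)))))) := by
    refine hq.preimage ?_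
    rintro (a | (_ | k))
    · exact PF.coord _
    · exact PF.coord _
    · exact PF.coord _
  refine ⟨_, h1.exists_real, fun w => ?_⟩
  refine exists_congr fun t => ?_
  rw [hq']
  have e : (Sum.elim id (ext t w) : ℝ ⊕ Option κ → ℝ) = (fun s => s.elim (fun a => ext t (Sum.elim id w : ℝ ⊕ κ → ℝ) (some (Sum.inl a)))
      (fun o => o.elim (ext t (Sum.elim id w : ℝ ⊕ κ → ℝ) none) (fun k => ext t (Sum.elim id w : ℝ ⊕ κ → ℝ) (some (Sum.inr k))))) := by
    funext s
    rcases s with a | (_ | k) <;> rfl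
  rw [e]

open Polynomial in
/-- specialisation of a rational polynomial in the parameters and two variables -/
noncomputable def Phi (q : MvPolynomial (ℝ ⊕ Fin 2) ℚ) : Polynomial (Polynomial ℝ) :=
  MvPolynomial.aeval (fun s : ℝ ⊕ Fin 2 => s.elim (fun a => Polynomial.C (Polynomial.C a))
    ![Polynomial.C Polynomial.X, Polynomial.X]) q

lemma evalEval_Phi (q : MvPolynomial (ℝ ⊕ Fin 2) ℚ) (x y : ℝ) :
    (Phi q).evalEval x y = MvPolynomial.aeval (Sum.elim id ![x, y] : ℝ ⊕ Fin 2 → ℝ) q := by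
  induction q using MvPolynomial.induction_on with
  | C a =>
    have : Phi (MvPolynomial.C a) = Polynomial.C (Polynomial.C (a : ℝ)) := by
      unfold Phi
      rw [MvPolynomial.aeval_C]
      rfl
    rw [this]
    simp [Polynomial.evalEval]
  | add p q hp hq =>
    have : Phi (p + q) = Phi p + Phi q := by unfold Phi; rw [map_add]
    rw [this, map_add, ← hp, ← hq]
    simp [Polynomial.evalEval]
  | mul_X p s hp =>
    have : Phi (p * MvPolynomial.X s) = Phi p * (s.elim (fun a => Polynomial.C (Polynomial.C a))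
      ![Polynomial.C Polynomial.X, Polynomial.X]) := by
      unfold Phi; rw [map_mul, MvPolynomial.aeval_X]
    rw [this, map_mul, ← hp, MvPolynomial.aeval_X]
    rcases s with a | i
    · simp [Polynomial.evalEval]
    · fin_cases i <;> simp [Polynomial.evalEval]

lemma continuous_evalEval_right (P : Polynomial (Polynomial ℝ)) (x : ℝ) :
    Continuous (fun y => P.evalEval x y) := by
  induction P using Polynomial.induction_on' with
  | add p q hp hq =>
    have : (fun y => (p + q).evalEval x y) = fun y => p.evalEval x y + q.evalEval x y := by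
      funext y; simp [Polynomial.evalEval]
    rw [this]; exact hp.add hq
  | monomial n a =>
    have : (fun y => (Polynomial.monomial n a).evalEval x y) = fun y => a.eval x * y ^ n := by
      funext y; simp [Polynomial.evalEval]
    rw [this]; fun_prop

/-- a semialgebraic planar set is locally constant along vertical lines off a proper curve -/
lemma RS.curve {r : ℝ → ℝ → Prop} (h : RS (fun w : Fin 2 → ℝ => r (w 0) (w 1))) :
    ∃ P : Polynomial (Polynomial ℝ), P ≠ 0 ∧ ∀ x y, P.evalEval x y ≠ 0 →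
      ∀ᶠ y' in 𝓝 y, (r x y' ↔ r x y) := by
  classical
  obtain ⟨q, hq, hq'⟩ := h
  obtain ⟨Q, hQ⟩ := SA.iff hq
  refine ⟨∏ p ∈ Q.filter (fun p => Phi p ≠ 0), Phi p, ?_, ?_⟩
  · exact Finset.prod_ne_zero_iff.2 fun p hp => (Finset.mem_filter.1 hp).2
  · intro x y hxy
    have hne : ∀ p ∈ Q, Phi p ≠ 0 → (Phi p).evalEval x y ≠ 0 := by
      intro p hp hp0 h0
      apply hxy
      have : (∏ p ∈ Q.filter (fun p => Phi p ≠ 0), Phi p).evalEval x y
          = ∏ p ∈ Q.filter (fun p => Phi p ≠ 0), (Phi p).evalEval x y := by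
        simp only [Polynomial.evalEval, Polynomial.eval_prod]
      rw [this]
      exact Finset.prod_eq_zero (Finset.mem_filter.2 ⟨hp, hp0⟩) h0
    have hev : ∀ p ∈ Q, ∀ᶠ y' in 𝓝 y, SignType.sign ((Phi p).evalEval x y') =
        SignType.sign ((Phi p).evalEval x y) := by
      intro p hp
      by_cases h0 : Phi p = 0
      · simp [h0]
      · have hc := (continuous_evalEval_right (Phi p) x).continuousAt (x := y)
        rcases lt_or_gt_of_ne (hne p hp h0) with hlt | hgt
        · have := hc.eventually (gt_mem_nhds hlt)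
          filter_upwards [this] with y' hy'
          rw [sign_neg hlt, sign_neg hy']
        · have := hc.eventually (lt_mem_nhds hgt)
          filter_upwards [this] with y' hy'
          rw [sign_pos hgt, sign_pos hy']
    have hall := (Filter.eventually_all_finset Q).2 hev
    filter_upwards [hall] with y' hy'
    have e1 : ∀ z : ℝ, r x z ↔ q (Sum.elim id ![x, z]) := fun z => by
      have := hq' ![x, z]
      simpa using this
    rw [e1, e1]
    refine hQ _ _ fun p hp => ?_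
    rw [← evalEval_Phi, ← evalEval_Phi]
    exact hy' p hp

/-- a function which is semialgebraic on a set satisfies a polynomial equation there -/
lemma RS.algebraic {I : Set ℝ} {h : ℝ → ℝ}
    (hr : RS (fun w : Fin 2 → ℝ => w 0 ∈ I ∧ w 1 = h (w 0))) :
    ∃ P : Polynomial (Polynomial ℝ), P ≠ 0 ∧ ∀ x ∈ I, P.evalEval x (h x) = 0 := by
  obtain ⟨P, hP, hc⟩ := RS.curve (r := fun x y => x ∈ I ∧ y = h x) hr
  refine ⟨P, hP, fun x hx => ?_⟩
  by_contra hne
  have := hc x (h x) hne
  have h1 : ∀ᶠ y' in 𝓝 (h x), y' = h x := by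
    filter_upwards [this] with y' hy'
    exact (hy'.2 ⟨hx, rfl⟩).2
  have h2 : ({h x} : Set ℝ) ∈ 𝓝 (h x) := h1
  have h3 := isOpen_singleton_iff_nhds_eq_pure (h x) |>.2
    (le_antisymm (by
      intro s hs
      exact Filter.mem_of_superset h2 (by simpa using hs)) (pure_le_nhds _))
  exact not_isOpen_singleton (h x) h3

end Pool.Agent.X223.WAL
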