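import Mathlib
import Pool.Agent.X223.WAL.RS

/-!
# Definable sets of `(ℝ, <, +, ·|(0,1)², ℤ)`
-/

namespace Pool.Agent.X223.WAL

open Pool.Agent.H581R2 FirstOrder

/-- function symbols: addition -/
inductive Fn : ℕ → Type
  | add : Fn 2

/-- relation symbols: the order, the graph of multiplication on the unit square, the integers -/
inductive Rl : ℕ → Type
  | lt : Rl 2
  | mul : Rl 3
  | int : Rl 1

/-- the language of ordered additive groups with a ternary and a unary predicate -/
def LZ : Language := ⟨Fn, Rl⟩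

/-- the structure `(ℝ, <, +, ·|(0,1)², ℤ)` -/
noncomputable instance realStructure : LZ.Structure ℝ where
  funMap := fun {_} f v => match f with
    | Fn.add => v 0 + v 1
  RelMap := fun {_} r v => match r with
    | Rl.lt => v 0 < v 1
    | Rl.mul => (0 < v 0 ∧ v 0 < 1) ∧ (0 < v 1 ∧ v 1 < 1) ∧ v 0 * v 1 = v 2
    | Rl.int => ∃ n : ℤ, v 0 = n

variable {ι κ : Type}

/-- semialgebraic on every unit cube, with finitely many patterns -/
def Tame (p : (ι → ℝ) → Prop) : Prop :=
  ∃ (J : Type) (_ : Finite J) (q : J → (ι → ℝ) → Prop), (∀ j, SAP (q j)) ∧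
    ∀ k : ι → ℤ, ∃ j, ∀ b : ι → ℝ, (∀ i, 0 ≤ b i ∧ b i < 1) → (p (fun i => k i + b i) ↔ q j b)

lemma Tame.congr {p q : (ι → ℝ) → Prop} (hp : Tame p) (h : ∀ v, q v ↔ p v) : Tame q := by
  have : q = p := funext fun v => propext (h v)
  rwa [this]

lemma Tame.and {p q : (ι → ℝ) → Prop} (hp : Tame p) (hq : Tame q) :
    Tame (fun v => p v ∧ q v) := by
  obtain ⟨J, _, r, hr, hr'⟩ := hp
  obtain ⟨K, _, s, hs, hs'⟩ := hq
  refine ⟨J × K, inferInstance, fun j v => r j.1 v ∧ s j.2 v, fun j => (hr j.1).and (hs j.2),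
    fun k => ?_⟩
  obtain ⟨j1, h1⟩ := hr' k
  obtain ⟨j2, h2⟩ := hs' k
  exact ⟨(j1, j2), fun b hb => and_congr (h1 b hb) (h2 b hb)⟩

lemma Tame.not {p : (ι → ℝ) → Prop} (hp : Tame p) : Tame (fun v => ¬ p v) := by
  obtain ⟨J, _, r, hr, hr'⟩ := hp
  refine ⟨J, inferInstance, fun j v => ¬ r j v, fun j => (hr j).not, fun k => ?_⟩
  obtain ⟨j1, h1⟩ := hr' k
  exact ⟨j1, fun b hb => not_congr (h1 b hb)⟩

lemma Tame.imp {p q : (ι → ℝ) → Prop} (hp : Tame p) (hq : Tame q) :
    Tame (fun v => p v → q v) :=
  (hp.and hq.not).not.congr fun v => by tauto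

lemma Tame.const (P : Prop) : Tame (fun _ : ι → ℝ => P) :=
  ⟨Unit, inferInstance, fun _ _ => P, fun _ => SAP.const P, fun _ => ⟨(), fun _ _ => Iff.rfl⟩⟩

lemma Tame.reindex {p : (ι → ℝ) → Prop} (hp : Tame p) (φ : ι → κ) :
    Tame (fun v : κ → ℝ => p (fun i => v (φ i))) := by
  obtain ⟨J, _, r, hr, hr'⟩ := hp
  refine ⟨J, inferInstance, fun j v => r j (fun i => v (φ i)),
    fun j => (hr j).preimage fun i => PF.coord _, fun k => ?_⟩
  obtain ⟨j1, h1⟩ := hr' (fun i => k (φ i))
  exact ⟨j1, fun b hb => h1 (fun i => b (φ i)) fun i => hb _⟩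

lemma Tame.exists_real {p : (Option ι → ℝ) → Prop} (hp : Tame p) :
    Tame (fun v : ι → ℝ => ∃ t, p (ext t v)) := by
  obtain ⟨J, _, r, hr, hr'⟩ := hp
  choose ch hch using hr'
  refine ⟨Set J, inferInstance, fun S v => ∃ j, (j ∈ S) ∧ ∃ t, (0 ≤ ext t v none ∧ ext t v none < 1)
    ∧ r j (ext t v), fun S => ?_, fun k => ?_⟩
  · refine SAP.exists_fin fun j => (SAP.const _).and (SAP.exists_real
      (p := fun u => (0 ≤ u none ∧ u none < 1) ∧ r j u) ?_)
    exact ((SAP.le PF.zero (PF.coord _)).and (SAP.lt (PF.coord _) PF.one)).and (hr j)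
  · let kk : ℤ → Option ι → ℤ := fun m o => o.elim m k
    refine ⟨{j | ∃ m, j = ch (kk m)}, fun b hb => ?_⟩
    have key : ∀ (m : ℤ) (c : ℝ), 0 ≤ c → c < 1 →
        (p (ext (m + c) (fun i => k i + b i)) ↔ r (ch (kk m)) (ext c b)) := by
      intro m c h0 h1
      rw [← hch (kk m) (ext c b)]
      · have e : (ext (m + c) (fun i => (k i : ℝ) + b i) : Option ι → ℝ) =
            fun i => ((kk m i : ℤ) : ℝ) + ext c b i := by
          funext o; cases o <;> rfl
        rw [e]
      · intro o
        cases o with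
        | none => exact ⟨h0, h1⟩
        | some i => exact hb i
    constructor
    · rintro ⟨t, ht⟩
      refine ⟨_, ⟨⌊t⌋, rfl⟩, Int.fract t, ⟨Int.fract_nonneg t, Int.fract_lt_one t⟩, ?_⟩
      rw [← key _ _ (Int.fract_nonneg t) (Int.fract_lt_one t), Int.floor_add_fract]
      exact ht
    · rintro ⟨j, ⟨m, rfl⟩, c, ⟨h0, h1⟩, hc⟩
      exact ⟨m + c, (key m c h0 h1).2 hc⟩

lemma Tame.forall_real {p : (Option ι → ℝ) → Prop} (hp : Tame p) :
    Tame (fun v : ι → ℝ => ∀ t, p (ext t v)) :=
  (hp.not.exists_real).not.congr fun v => by simp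

/-! Atomic relations. -/

lemma tame_lt : Tame (fun w : Fin 2 → ℝ => w 0 < w 1) := by
  classical
  refine ⟨Option Prop, inferInstance, fun j v => j.elim (v 0 < v 1) (fun P => P), ?_, fun k => ?_⟩
  · rintro (_ | P)
    · exact SAP.lt (PF.coord _) (PF.coord _)
    · exact SAP.const P
  · rcases lt_trichotomy (k 0) (k 1) with h | h | h
    · refine ⟨some True, fun b hb => ?_⟩
      have : (k 0 : ℝ) + 1 ≤ k 1 := by exact_mod_cast h
      simp only [Option.elim, iff_true]
      linarith [(hb 0).2, (hb 1).1]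
    · refine ⟨none, fun b hb => ?_⟩
      simp only [Option.elim, h]
      constructor <;> intro h <;> linarith
    · refine ⟨some False, fun b hb => ?_⟩
      have : (k 1 : ℝ) + 1 ≤ k 0 := by exact_mod_cast h
      simp only [Option.elim, iff_false, not_lt]
      linarith [(hb 1).2, (hb 0).1]

lemma tame_eq : Tame (fun w : Fin 2 → ℝ => w 0 = w 1) :=
  ((tame_lt.not).and (tame_lt.reindex ![1, 0]).not).congr fun v => by
    simp only [Matrix.cons_val_zero, Matrix.cons_val_one, not_lt]
    constructor
    · intro h; exact ⟨h.ge, h.le⟩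
    · rintro ⟨h1, h2⟩; exact le_antisymm h2 h1

lemma tame_add : Tame (fun w : Fin 3 → ℝ => w 0 + w 1 = w 2) := by
  classical
  refine ⟨Fin 3, inferInstance, ![fun v => v 0 + v 1 = v 2, fun v => v 0 + v 1 = v 2 + 1,
    fun _ => False], ?_, fun k => ?_⟩
  · intro j
    fin_cases j
    · exact SAP.eq ((PF.coord 0).add (PF.coord 1)) (PF.coord 2)
    · exact SAP.eq ((PF.coord 0).add (PF.coord 1)) ((PF.coord 2).add PF.one)
    · exact SAP.const False
  · by_cases h0 : k 0 + k 1 = k 2
    · refine ⟨0, fun b hb => ?_⟩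
      have : (k 0 : ℝ) + k 1 = k 2 := by exact_mod_cast h0
      simp only [Matrix.cons_val_zero]
      constructor <;> intro h <;> linarith
    · by_cases h1 : k 0 + k 1 + 1 = k 2
      · refine ⟨1, fun b hb => ?_⟩
        have : (k 0 : ℝ) + k 1 + 1 = k 2 := by exact_mod_cast h1
        show _ ↔ b 0 + b 1 = b 2 + 1
        constructor <;> intro h <;> linarith
      · refine ⟨2, fun b hb => ?_⟩
        simp only [Matrix.cons_val, iff_false]
        intro h
        rcases lt_trichotomy (k 0 + k 1) (k 2) with h2 | h2 | h2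
        · have h3 : k 0 + k 1 + 2 ≤ k 2 := by omega
          have : (k 0 : ℝ) + k 1 + 2 ≤ k 2 := by exact_mod_cast h3
          linarith [(hb 0).2, (hb 1).2, (hb 2).1]
        · exact h0 h2
        · have h3 : k 2 + 1 ≤ k 0 + k 1 := by omega
          have : (k 2 : ℝ) + 1 ≤ k 0 + k 1 := by exact_mod_cast h3
          linarith [(hb 0).1, (hb 1).1, (hb 2).2]

lemma int_zero_of {k : ℤ} {b : ℝ} (hb : 0 ≤ b ∧ b < 1) (h : 0 < (k : ℝ) + b ∧ (k : ℝ) + b < 1) :
    k = 0 := by
  have h1 : (-1 : ℝ) < k := by linarith [h.1, hb.2]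
  have h2 : (k : ℝ) < 1 := by linarith [h.2, hb.1]
  have h1' : (-1 : ℤ) < k := by exact_mod_cast h1
  have h2' : k < 1 := by exact_mod_cast h2
  omega

lemma tame_mul : Tame (fun w : Fin 3 → ℝ =>
    (0 < w 0 ∧ w 0 < 1) ∧ (0 < w 1 ∧ w 1 < 1) ∧ w 0 * w 1 = w 2) := by
  classical
  refine ⟨Bool, inferInstance, fun j v => j = true ∧ (0 < v 0 ∧ 0 < v 1 ∧ v 0 * v 1 = v 2), ?_,
    fun k => ?_⟩
  · intro j
    exact (SAP.const _).and ((SAP.lt PF.zero (PF.coord _)).and ((SAP.lt PF.zero (PF.coord _)).and
      (SAP.eq ((PF.coord 0).mul (PF.coord 1)) (PF.coord 2))))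
  · by_cases h : k 0 = 0 ∧ k 1 = 0 ∧ k 2 = 0
    · refine ⟨true, fun b hb => ?_⟩
      obtain ⟨h0, h1, h2⟩ := h
      simp only [h0, h1, h2, Int.cast_zero, zero_add, true_and]
      constructor
      · rintro ⟨a, b, c⟩; exact ⟨a.1, b.1, c⟩
      · rintro ⟨a, b, c⟩; exact ⟨⟨a, (hb 0).2⟩, ⟨b, (hb 1).2⟩, c⟩
    · refine ⟨false, fun b hb => ?_⟩
      simp only [Bool.false_eq_true, false_and, iff_false]
      rintro ⟨h0, h1, h2⟩
      refine h ⟨int_zero_of (hb 0) h0, int_zero_of (hb 1) h1, int_zero_of (hb 2) ?_⟩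
      rw [← h2]
      refine ⟨mul_pos h0.1 h1.1, ?_⟩
      nlinarith [h0.1, h0.2, h1.1, h1.2]

lemma tame_int : Tame (fun w : Fin 1 → ℝ => ∃ n : ℤ, w 0 = n) := by
  refine ⟨Unit, inferInstance, fun _ v => v 0 = 0, fun _ => SAP.eq_zero (PF.coord 0),
    fun k => ⟨(), fun b hb => ?_⟩⟩
  constructor
  · rintro ⟨n, hn⟩
    have h1 : b 0 = ((n - k 0 : ℤ) : ℝ) := by push_cast; linarith
    have h2 : (0 : ℝ) ≤ ((n - k 0 : ℤ) : ℝ) := h1 ▸ (hb 0).1
    have h3 : ((n - k 0 : ℤ) : ℝ) < 1 := h1 ▸ (hb 0).2
    have h2' : 0 ≤ n - k 0 := by exact_mod_cast h2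
    have h3' : n - k 0 < 1 := by exact_mod_cast h3
    have : n - k 0 = 0 := by omega
    show b 0 = 0
    rw [h1, this]; simp
  · intro h
    have h' : b 0 = 0 := h
    exact ⟨k 0, by show (k 0 : ℝ) + b 0 = k 0; rw [h', add_zero]⟩

/-- graphs of terms -/
lemma tame_term {β : Type} (t : LZ.Term β) :
    Tame (fun w : Option β → ℝ => w none = t.realize (fun b => w (some b))) := by
  induction t with
  | var x =>
    refine (tame_eq.reindex ![none, some x]).congr fun v => ?_
    simp
  | @func l f ts ih =>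
    cases f with
    | add =>
      -- ∃ s t, s = ts 0 ∧ t = ts 1 ∧ s + t = w none
      have h0 : Tame (fun w : Option (Option (Option β)) → ℝ =>
          w (some none) = (ts 0).realize (fun b => w (some (some (some b))))) :=
        (ih 0).reindex (fun o : Option β => o.elim (some none) (fun b => some (some (some b))))
      have h1 : Tame (fun w : Option (Option (Option β)) → ℝ =>
          w none = (ts 1).realize (fun b => w (some (some (some b))))) :=
        (ih 1).reindex (fun o : Option β => o.elim none (fun b => some (some (some b))))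
      have h2 : Tame (fun w : Option (Option (Option β)) → ℝ =>
          w (some none) + w none = w (some (some none))) :=
        (tame_add.reindex ![some none, none, some (some none)]).congr fun v => by simp
      refine ((h0.and (h1.and h2)).exists_real.exists_real).congr fun v => ?_
      simp only [ext_none, ext_some]
      constructor
      · intro h
        exact ⟨_, _, rfl, rfl, h.symm⟩
      · rintro ⟨s, t, hs, ht, hst⟩
        rw [← hst, hs, ht]
        rfl

lemma tame_rel1 {β : Type} {r : (Fin 1 → ℝ) → Prop} (hr : Tame r) (ts : Fin 1 → LZ.Term β) :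
    Tame (fun w : β → ℝ => r (fun i => (ts i).realize w)) := by
  have h0 : Tame (fun w : Option β → ℝ => w none = (ts 0).realize (fun b => w (some b))) :=
    tame_term _
  refine ((h0.and (hr.reindex ![none])).exists_real).congr fun v => ?_
  simp only [ext_none, ext_some]
  constructor
  · intro h
    refine ⟨_, rfl, ?_⟩
    refine cast ?_ h
    congr 1
    funext i
    fin_cases i; rfl
  · rintro ⟨s, hs, h⟩
    refine cast ?_ h
    congr 1
    funext i
    fin_cases i; exact hs

lemma tame_rel2 {β : Type} {r : (Fin 2 → ℝ) → Prop} (hr : Tame r) (ts : Fin 2 → LZ.Term β) :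
    Tame (fun w : β → ℝ => r (fun i => (ts i).realize w)) := by
  have h0 : Tame (fun w : Option (Option β) → ℝ =>
      w (some none) = (ts 0).realize (fun b => w (some (some b)))) :=
    (tame_term (ts 0)).reindex (fun o : Option β => o.elim (some none) (fun b => some (some b)))
  have h1 : Tame (fun w : Option (Option β) → ℝ =>
      w none = (ts 1).realize (fun b => w (some (some b)))) :=
    (tame_term (ts 1)).reindex (fun o : Option β => o.elim none (fun b => some (some b)))
  refine ((h0.and (h1.and (hr.reindex ![some none, none]))).exists_real.exists_real).congr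
    fun v => ?_
  simp only [ext_none, ext_some]
  constructor
  · intro h
    refine ⟨_, _, rfl, rfl, ?_⟩
    refine cast ?_ h
    congr 1
    funext i
    fin_cases i <;> rfl
  · rintro ⟨s, t, hs, ht, h⟩
    refine cast ?_ h
    congr 1
    funext i
    fin_cases i
    · exact hs
    · exact ht

lemma tame_rel3 {β : Type} {r : (Fin 3 → ℝ) → Prop} (hr : Tame r) (ts : Fin 3 → LZ.Term β) :
    Tame (fun w : β → ℝ => r (fun i => (ts i).realize w)) := by
  have h0 : Tame (fun w : Option (Option (Option β)) → ℝ =>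
      w (some (some none)) = (ts 0).realize (fun b => w (some (some (some b))))) :=
    (tame_term (ts 0)).reindex
      (fun o : Option β => o.elim (some (some none)) (fun b => some (some (some b))))
  have h1 : Tame (fun w : Option (Option (Option β)) → ℝ =>
      w (some none) = (ts 1).realize (fun b => w (some (some (some b))))) :=
    (tame_term (ts 1)).reindex
      (fun o : Option β => o.elim (some none) (fun b => some (some (some b))))
  have h2 : Tame (fun w : Option (Option (Option β)) → ℝ =>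
      w none = (ts 2).realize (fun b => w (some (some (some b))))) :=
    (tame_term (ts 2)).reindex (fun o : Option β => o.elim none (fun b => some (some (some b))))
  refine ((h0.and (h1.and (h2.and (hr.reindex ![some (some none), some none,
    none])))).exists_real.exists_real.exists_real).congr fun v => ?_
  simp only [ext_none, ext_some]
  constructor
  · intro h
    refine ⟨_, _, _, rfl, rfl, rfl, ?_⟩
    refine cast ?_ h
    congr 1
    funext i
    fin_cases i <;> rfl
  · rintro ⟨s, t, u, hs, ht, hu, h⟩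
    refine cast ?_ h
    congr 1
    funext i
    fin_cases i
    · exact hs
    · exact ht
    · exact hu

/-- Every formula defines a tame set. -/
theorem tame_formula {α : Type} {n : ℕ} (φ : LZ.BoundedFormula α n) :
    Tame (fun w : α ⊕ Fin n → ℝ => φ.Realize (fun a => w (Sum.inl a)) (fun i => w (Sum.inr i))) := by
  induction φ with
  | falsum => exact (Tame.const False).congr fun v => Iff.rfl
  | @equal n t1 t2 =>
    refine (tame_rel2 tame_eq ![t1, t2]).congr fun v => ?_
    show t1.realize (Sum.elim _ _) = t2.realize (Sum.elim _ _) ↔ t1.realize v = t2.realize v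
    have e : (Sum.elim (fun a => v (Sum.inl a)) (fun i => v (Sum.inr i)) : α ⊕ Fin n → ℝ) = v := by
      funext s; cases s <;> rfl
    rw [e]
  | @rel n l R ts =>
    have e : ∀ v : α ⊕ Fin n → ℝ,
        (Sum.elim (fun a => v (Sum.inl a)) (fun i => v (Sum.inr i)) : α ⊕ Fin n → ℝ) = v := by
      intro v
      funext s; cases s <;> rfl
    cases R with
    | lt =>
      refine (tame_rel2 tame_lt ts).congr fun v => ?_
      show (ts 0).realize (Sum.elim _ _) < (ts 1).realize (Sum.elim _ _) ↔ _
      rw [e]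
    | mul =>
      refine (tame_rel3 tame_mul ts).congr fun v => ?_
      show ((0 < (ts 0).realize (Sum.elim _ _) ∧ (ts 0).realize (Sum.elim _ _) < 1) ∧
        (0 < (ts 1).realize (Sum.elim _ _) ∧ (ts 1).realize (Sum.elim _ _) < 1) ∧
        (ts 0).realize (Sum.elim _ _) * (ts 1).realize (Sum.elim _ _) =
        (ts 2).realize (Sum.elim _ _)) ↔ _
      rw [e]
    | int =>
      refine (tame_rel1 tame_int ts).congr fun v => ?_
      show (∃ m : ℤ, (ts 0).realize (Sum.elim (fun a => v (Sum.inl a)) (fun i => v (Sum.inr i)) :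
        α ⊕ Fin n → ℝ) = (m : ℝ)) ↔ _
      rw [e]
  | imp φ ψ h1 h2 => exact h1.imp h2
  | @all n φ ih =>
    refine (ih.reindex (κ := Option (α ⊕ Fin n)) (fun s => s.elim (fun a => some (Sum.inl a))
      (fun i => Fin.lastCases (motive := fun _ => Option (α ⊕ Fin n)) none
        (fun j => some (Sum.inr j)) i))).forall_real.congr fun v => ?_
    rw [Language.BoundedFormula.realize_all]
    refine forall_congr' fun a => ?_
    have e : (Fin.snoc (fun i => v (Sum.inr i)) a : Fin (n + 1) → ℝ) = fun i =>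
        ext a v (Fin.lastCases (motive := fun _ => Option (α ⊕ Fin n)) none
        (fun j => some (Sum.inr j)) i) := by
      funext i
      refine Fin.lastCases ?_ (fun j => ?_) i
      · simp
      · simp
    rw [e]
    rfl

end Pool.Agent.X223.WAL
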