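import Mathlib
import Pool.Agent.X223.WAL.Tame
import Pool.Agent.X223.WAL.QA

/-!
# Smooth definable functions are affine
-/

namespace Pool.Agent.X223.WAL

open Pool.Agent.H581R2 FirstOrder Filter Topology

/-- the graph of a definable function is piecewise semialgebraic with finitely many patterns -/
lemma patterns {f : ℝ → ℝ}
    (hf : Set.Definable (Set.univ : Set ℝ) LZ {w : Fin 2 → ℝ | w 1 = f (w 0)}) :
    ∃ (J : Type) (_ : Finite J) (R : J → (Fin 2 → ℝ) → Prop), (∀ j, RS (R j)) ∧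
      ∀ k l : ℤ, ∃ j, ∀ b c : ℝ, 0 ≤ b → b < 1 → 0 ≤ c → c < 1 →
        (l + c = f (k + b) ↔ R j ![b, c]) := by
  obtain ⟨φ, hφ⟩ := Set.definable_iff_exists_formula_sum.1 hf
  have h1 := tame_formula φ
  have h2 := h1.reindex (κ := ℝ ⊕ Fin 2)
    (Sum.elim (Sum.elim (fun a : (Set.univ : Set ℝ) => Sum.inl (a : ℝ)) Sum.inr)
      (fun i : Fin 0 => i.elim0))
  obtain ⟨J, hJ, q, hq, hpat⟩ := h2
  refine ⟨J, hJ, fun j w => q j (Sum.elim (fun a => Int.fract a) w), fun j => ?_, fun k l => ?_⟩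
  · refine ⟨fun u => q j (Sum.elim (fun a => u (Sum.inl (Int.fract a))) (fun i => u (Sum.inr i))),
      (hq j).preimage ?_, fun w => Iff.rfl⟩
    rintro (a | i)
    · exact PF.coord _
    · exact PF.coord _
  · obtain ⟨j, hj⟩ := hpat (Sum.elim (fun a => ⌊a⌋) ![k, l])
    refine ⟨j, fun b c hb0 hb1 hc0 hc1 => ?_⟩
    show _ ↔ q j (Sum.elim (fun a => Int.fract a) ![b, c])
    rw [← hj (Sum.elim (fun a => Int.fract a) ![b, c])]
    · have h3 : ((![(k : ℝ) + b, l + c] : Fin 2 → ℝ) ∈ {w : Fin 2 → ℝ | w 1 = f (w 0)}) ↔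
          l + c = f (k + b) := Iff.rfl
      rw [← h3, hφ]
      have e : (Sum.elim (fun a : (Set.univ : Set ℝ) => (a : ℝ)) ![(k : ℝ) + b, l + c] :
          (Set.univ : Set ℝ) ⊕ Fin 2 → ℝ) = fun t =>
          (((Sum.elim (fun a => ⌊a⌋) ![k, l] : ℝ ⊕ Fin 2 → ℤ)
            (Sum.elim (fun a : (Set.univ : Set ℝ) => Sum.inl (a : ℝ)) Sum.inr t) : ℤ) : ℝ) +
          (Sum.elim (fun a => Int.fract a) ![b, c] : ℝ ⊕ Fin 2 → ℝ)
            (Sum.elim (fun a : (Set.univ : Set ℝ) => Sum.inl (a : ℝ)) Sum.inr t) := by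
        funext t
        rcases t with a | i
        · exact (Int.floor_add_fract (a : ℝ)).symm
        · fin_cases i <;> rfl
      show φ.Realize (Sum.elim (fun a : (Set.univ : Set ℝ) => (a : ℝ)) ![(k : ℝ) + b, l + c]) ↔ _
      rw [e]
      unfold Language.Formula.Realize
      exact iff_of_eq (congrArg (Language.BoundedFormula.Realize φ _) (Subsingleton.elim _ _))
    · rintro (a | i)
      · exact ⟨Int.fract_nonneg _, Int.fract_lt_one _⟩
      · fin_cases i
        · exact ⟨hb0, hb1⟩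
        · exact ⟨hc0, hc1⟩

/-- semialgebraic on every interval `[k, k+1)` -/
def Piece (h : ℝ → ℝ) : Prop :=
  ∀ k : ℤ, RS (fun w : Fin 2 → ℝ => ((k : ℝ) ≤ w 0 ∧ w 0 < k + 1) ∧ w 1 = h (w 0))

lemma Piece.of_definable {f : ℝ → ℝ} (hc : Continuous f)
    (hf : Set.Definable (Set.univ : Set ℝ) LZ {w : Fin 2 → ℝ | w 1 = f (w 0)}) : Piece f := by
  obtain ⟨J, _, R, hR, hpat⟩ := patterns hf
  intro k
  obtain ⟨M, hM⟩ : ∃ M : ℝ, ∀ x ∈ Set.Icc (k : ℝ) (k + 1), |f x| ≤ M :=
    isCompact_Icc.exists_bound_of_continuousOn (f := f) hc.continuousOn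
  choose ch hch using hpat
  have key : RS (fun w : Fin 2 → ℝ => ∃ l ∈ Finset.Icc (-⌈M⌉ - 1) ⌈M⌉,
      (((k : ℝ) ≤ w 0 ∧ w 0 < k + 1) ∧ (((l : ℤ) : ℝ) ≤ w 1 ∧ w 1 < (l : ℝ) + 1)) ∧
        R (ch k l) ![w 0 - k, w 1 - l]) := by
    refine RS.exists_mem _ fun l _ => RS.and (RS.and (RS.and ?_ ?_) (RS.and ?_ ?_)) ?_
    · exact RS.le (PFR.const _) (PFR.coord _)
    · exact RS.lt (PFR.coord _) (PFR.const _)
    · exact RS.le (PFR.const _) (PFR.coord _)
    · exact RS.lt (PFR.coord _) (PFR.const _)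
    · refine (hR (ch k l)).preimage (φ := fun w => ![w 0 - k, w 1 - l]) fun i => ?_
      fin_cases i
      · exact (PFR.coord _).sub (PFR.const _)
      · exact (PFR.coord _).sub (PFR.const _)
  refine key.congr fun w => ?_
  constructor
  · rintro ⟨hk, hw⟩
    have hb := hM (w 0) ⟨hk.1, hk.2.le⟩
    rw [← hw, abs_le] at hb
    refine ⟨⌊w 1⌋, ?_, ⟨hk, Int.floor_le _, Int.lt_floor_add_one _⟩, ?_⟩
    · rw [Finset.mem_Icc]
      constructor
      · rw [Int.le_floor]
        push_cast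
        have := Int.le_ceil M
        linarith [hb.1]
      · have h1 : ⌊w 1⌋ ≤ ⌊M⌋ := Int.floor_le_floor hb.2
        exact h1.trans (Int.floor_le_ceil M)
    · rw [← hch k ⌊w 1⌋ (w 0 - k) (w 1 - ⌊w 1⌋) (by linarith [hk.1]) (by linarith [hk.2])
        (by linarith [Int.floor_le (w 1)]) (by linarith [Int.lt_floor_add_one (w 1)])]
      rw [show ((⌊w 1⌋ : ℤ) : ℝ) + (w 1 - ⌊w 1⌋) = w 1 by ring,
        show (k : ℝ) + (w 0 - k) = w 0 by ring]
      exact hw
  · rintro ⟨l, -, ⟨hk, hl⟩, hr⟩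
    rw [← hch k l (w 0 - k) (w 1 - l) (by linarith [hk.1]) (by linarith [hk.2])
        (by linarith [hl.1]) (by linarith [hl.2])] at hr
    rw [show (l : ℝ) + (w 1 - l) = w 1 by ring, show (k : ℝ) + (w 0 - k) = w 0 by ring] at hr
    exact ⟨hk, hr⟩

/-- combination of two piecewise semialgebraic functions by a polynomial function -/
lemma Piece.comb {u v : ℝ → ℝ} (hu : Piece u) (hv : Piece v) {F : (Fin 3 → ℝ) → ℝ}
    (hF : PFR F) : Piece (fun x => F ![x, u x, v x]) := by
  intro k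
  have h1 : RS (fun w : Option (Option (Fin 2)) → ℝ =>
      ((k : ℝ) ≤ w (some (some 0)) ∧ w (some (some 0)) < k + 1) ∧
        w (some none) = u (w (some (some 0)))) := by
    refine (hu k).preimage (φ := fun w => ![w (some (some 0)), w (some none)]) fun i => ?_
    fin_cases i
    · exact PFR.coord _
    · exact PFR.coord _
  have h2 : RS (fun w : Option (Option (Fin 2)) → ℝ =>
      ((k : ℝ) ≤ w (some (some 0)) ∧ w (some (some 0)) < k + 1) ∧
        w none = v (w (some (some 0)))) := by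
    refine (hv k).preimage (φ := fun w => ![w (some (some 0)), w none]) fun i => ?_
    fin_cases i
    · exact PFR.coord _
    · exact PFR.coord _
  have h3 : RS (fun w : Option (Option (Fin 2)) → ℝ =>
      w (some (some 1)) = F ![w (some (some 0)), w (some none), w none]) := by
    have h4 : RS (fun w : Fin 4 → ℝ => w 3 = F ![w 0, w 1, w 2]) := by
      refine RS.eq (PFR.coord _) ?_
      obtain ⟨g, hg, hg'⟩ := hF
      refine ⟨fun s => g (Sum.elim (fun a => s (Sum.inl a)) ![s (Sum.inr 0), s (Sum.inr 1),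
        s (Sum.inr 2)]), hg.comp ?_, fun w => ?_⟩
      · rintro (a | i)
        · exact PF.coord _
        · fin_cases i <;> exact PF.coord _
      · show F ![w 0, w 1, w 2] = _
        rw [hg']
        show g _ = g _
        congr 1
    refine h4.preimage (φ := fun w => ![w (some (some 0)), w (some none), w none,
      w (some (some 1))]) fun i => ?_
    fin_cases i <;> exact PFR.coord _
  refine ((h1.and (h2.and h3)).exists_real.exists_real).congr fun w => ?_
  simp only [ext_none, ext_some]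
  constructor
  · rintro ⟨hk, hw⟩
    exact ⟨_, _, ⟨hk, rfl⟩, ⟨hk, rfl⟩, hw⟩
  · rintro ⟨s, t, ⟨hk, hs⟩, ⟨_, ht⟩, hw⟩
    rw [hs, ht] at hw
    exact ⟨hk, hw⟩

lemma Piece.const (c : ℝ) : Piece (fun _ => c) := fun _ =>
  RS.and (RS.and (RS.le (PFR.const _) (PFR.coord _)) (RS.lt (PFR.coord _) (PFR.const _)))
    (RS.eq (PFR.coord _) (PFR.const _))

lemma Piece.ident : Piece (fun x => x) := fun _ =>
  RS.and (RS.and (RS.le (PFR.const _) (PFR.coord _)) (RS.lt (PFR.coord _) (PFR.const _)))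
    (RS.eq (PFR.coord _) (PFR.coord _))

lemma Piece.add {u v : ℝ → ℝ} (hu : Piece u) (hv : Piece v) : Piece (fun x => u x + v x) :=
  hu.comb hv (F := fun w => w 1 + w 2) ((PFR.coord _).add (PFR.coord _))

lemma Piece.mul {u v : ℝ → ℝ} (hu : Piece u) (hv : Piece v) : Piece (fun x => u x * v x) :=
  hu.comb hv (F := fun w => w 1 * w 2) ((PFR.coord _).mul (PFR.coord _))

lemma Piece.shift {u : ℝ → ℝ} (hu : Piece u) (p : ℤ) : Piece (fun x => u (x + p)) := by
  intro k
  refine ((hu (k + p)).preimage (φ := fun w => ![w 0 + p, w 1]) fun i => ?_).congr fun w => ?_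
  · fin_cases i
    · exact (PFR.coord _).add (PFR.const _)
    · exact PFR.coord _
  · simp only [Matrix.cons_val_zero, Matrix.cons_val_one]
    push_cast
    constructor
    · rintro ⟨⟨h1, h2⟩, h3⟩
      exact ⟨⟨by linarith, by linarith⟩, h3⟩
    · rintro ⟨⟨h1, h2⟩, h3⟩
      exact ⟨⟨by linarith, by linarith⟩, h3⟩

lemma Piece.evalEval {g : ℝ → ℝ} (hg : Piece g) (P : Polynomial (Polynomial ℝ)) :
    Piece (fun x => P.evalEval x (g x)) :=
  evalEval_ind Piece g Piece.const Piece.ident hg (fun _ _ hu hv => hu.add hv)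
    (fun _ _ hu hv => hu.mul hv) P

lemma Piece.algebraic {h : ℝ → ℝ} (hh : Piece h) (k : ℤ) :
    ∃ P : Polynomial (Polynomial ℝ), P ≠ 0 ∧ ∀ x : ℝ, (k : ℝ) ≤ x → x < k + 1 →
      P.evalEval x (h x) = 0 := by
  obtain ⟨P, hP, h1⟩ := RS.algebraic (I := {x | (k : ℝ) ≤ x ∧ x < k + 1}) (hh k)
  exact ⟨P, hP, fun x h2 h3 => h1 x ⟨h2, h3⟩⟩

lemma Piece.loc {h : ℝ → ℝ} (hh : Piece h) (x0 : ℝ) :
    ∃ P : Polynomial (Polynomial ℝ), P ≠ 0 ∧ ∀ᶠ x in 𝓝 x0, P.evalEval x (h x) = 0 := by
  obtain ⟨P, hP, hP'⟩ := hh.algebraic (⌊x0⌋ - 1)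
  obtain ⟨Q, hQ, hQ'⟩ := hh.algebraic ⌊x0⌋
  refine ⟨P * Q, mul_ne_zero hP hQ, ?_⟩
  have h1 : ((⌊x0⌋ : ℤ) : ℝ) - 1 < x0 := by linarith [Int.floor_le x0]
  have h2 : x0 < ((⌊x0⌋ : ℤ) : ℝ) + 1 := Int.lt_floor_add_one x0
  filter_upwards [Ioo_mem_nhds h1 h2] with x hx
  have e : (P * Q).evalEval x (h x) = P.evalEval x (h x) * Q.evalEval x (h x) := by
    simp [Polynomial.evalEval]
  rw [e]
  rcases lt_or_ge x ⌊x0⌋ with h3 | h3
  · rw [hP' x (by push_cast; exact hx.1.le) (by push_cast; linarith), zero_mul]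
  · rw [hQ' x h3 hx.2, mul_zero]

/-- a smooth piecewise semialgebraic function which vanishes near a point is zero -/
lemma Piece.zero {h : ℝ → ℝ} (hh : Piece h) (hs : Smooth h) (a : ℝ)
    (ha : ∀ᶠ x in 𝓝 a, h x = 0) : ∀ x, h x = 0 :=
  quasianalytic h hs hh.loc a ha

/-- among finitely many integer translates two have the same fractional part -/
lemma pigeon {f : ℝ → ℝ}
    (hf : Set.Definable (Set.univ : Set ℝ) LZ {w : Fin 2 → ℝ | w 1 = f (w 0)}) (x : ℝ) :
    ∃ i j : ℕ, i < j ∧ ∃ m : ℤ, f (x + j) - f (x + i) = m := by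
  obtain ⟨J, _, R, hR, hpat⟩ := patterns hf
  choose ch hch using hpat
  obtain ⟨i, j, hij, he⟩ := Finite.exists_ne_map_eq_of_infinite
    (fun i : ℕ => ch (⌊x⌋ + i) ⌊f (x + i)⌋)
  have fact : ∀ i : ℕ, ∀ c : ℝ, 0 ≤ c → c < 1 →
      (c = Int.fract (f (x + i)) ↔ R (ch (⌊x⌋ + i) ⌊f (x + i)⌋) ![Int.fract x, c]) := by
    intro i c h0 h1
    rw [← hch _ _ (Int.fract x) c (Int.fract_nonneg _) (Int.fract_lt_one _) h0 h1]
    have e : (((⌊x⌋ + (i : ℤ) : ℤ)) : ℝ) + Int.fract x = x + i := by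
      push_cast
      linarith [Int.floor_add_fract x]
    rw [e]
    have := Int.floor_add_fract (f (x + i))
    constructor <;> intro h <;> linarith
  have h1 : Int.fract (f (x + i)) = Int.fract (f (x + j)) := by
    have h2 := (fact i _ (Int.fract_nonneg _) (Int.fract_lt_one _)).1 rfl
    have he' : ch (⌊x⌋ + (i : ℤ)) ⌊f (x + i)⌋ = ch (⌊x⌋ + (j : ℤ)) ⌊f (x + j)⌋ := he
    rw [he'] at h2
    exact (fact j _ (Int.fract_nonneg _) (Int.fract_lt_one _)).2 h2
  have hgen : ∀ a b : ℕ, Int.fract (f (x + a)) = Int.fract (f (x + b)) →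
      ∃ m : ℤ, f (x + b) - f (x + a) = m := by
    intro a b h
    refine ⟨⌊f (x + b)⌋ - ⌊f (x + a)⌋, ?_⟩
    push_cast
    linarith [Int.floor_add_fract (f (x + a)), Int.floor_add_fract (f (x + b))]
  rcases lt_or_gt_of_ne hij with h | h
  · exact ⟨i, j, h, hgen i j h1⟩
  · exact ⟨j, i, h, hgen j i h1.symm⟩

/-- **Every smooth definable function is affine.** -/
theorem affine_of_smooth {f : ℝ → ℝ} (hs : Smooth f)
    (hf : Set.Definable (Set.univ : Set ℝ) LZ {w : Fin 2 → ℝ | w 1 = f (w 0)}) :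
    ∃ a b : ℝ, ∀ x, f x = a * x + b := by
  have hc : Continuous f := hs.continuous
  have hpf : Piece f := Piece.of_definable hc hf
  -- Baire
  obtain ⟨⟨i, j, m⟩, hne⟩ : ∃ t : ℕ × ℕ × ℤ,
      (interior {x : ℝ | t.1 < t.2.1 ∧ f (x + t.2.1) - f (x + t.1) = t.2.2}).Nonempty := by
    refine nonempty_interior_of_iUnion_of_closed (fun t => ?_) ?_
    · by_cases h : t.1 < t.2.1
      · have : {x : ℝ | t.1 < t.2.1 ∧ f (x + t.2.1) - f (x + t.1) = t.2.2} =
            {x : ℝ | f (x + t.2.1) - f (x + t.1) = t.2.2} := by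
          ext x; simp [h]
        rw [this]
        exact isClosed_eq (by fun_prop) continuous_const
      · have : {x : ℝ | t.1 < t.2.1 ∧ f (x + t.2.1) - f (x + t.1) = t.2.2} = ∅ := by
          ext x; simp [h]
        rw [this]
        exact isClosed_empty
    · refine Set.eq_univ_of_forall fun x => ?_
      obtain ⟨i, j, h1, m, h2⟩ := pigeon hf x
      exact Set.mem_iUnion.2 ⟨(i, j, m), h1, h2⟩
  obtain ⟨y, hy⟩ := hne
  have hij : i < j := (interior_subset hy).1
  have hev : ∀ᶠ x in 𝓝 y, f (x + j) - f (x + i) = m := by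
    filter_upwards [isOpen_interior.mem_nhds hy] with x hx
    exact (interior_subset hx).2
  obtain ⟨p, rfl⟩ : ∃ p, j = i + p := ⟨j - i, by omega⟩
  have hp : 0 < p := by omega
  have hpr : (0 : ℝ) < p := by exact_mod_cast hp
  -- the function `f(x+p) - f(x) - m`
  have hper : ∀ x, f (x + (p : ℤ)) + (-1) * f x + (-(m : ℝ)) = 0 := by
    refine Piece.zero (h := fun x => f (x + (p : ℤ)) + (-1) * f x + (-(m : ℝ))) ?_ ?_ (y + i) ?_
    · exact ((hpf.shift p).add ((Piece.const (-1)).mul hpf)).add (Piece.const _)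
    · intro n
      have h1 : ContDiff ℝ n f := hs n
      have h2 : ContDiff ℝ n (fun x : ℝ => f (x + (p : ℤ))) :=
        h1.comp (contDiff_id.add contDiff_const)
      exact (h2.add (contDiff_const.mul h1)).add contDiff_const
    · have ht : Tendsto (fun x : ℝ => x - i) (𝓝 (y + i)) (𝓝 y) := by
        have : Continuous (fun x : ℝ => x - i) := by fun_prop
        have h2 := this.tendsto (y + i)
        simpa using h2
      filter_upwards [ht.eventually hev] with x hx
      have e1 : x - (i : ℝ) + ((i + p : ℕ) : ℝ) = x + ((p : ℤ) : ℝ) := by push_cast; ring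
      have e2 : x - (i : ℝ) + (i : ℝ) = x := by ring
      rw [e1, e2] at hx
      linarith
  set g : ℝ → ℝ := fun x => f x + (-((m : ℝ) / p)) * x with hg
  have hgp : Piece g := hpf.add ((Piece.const _).mul Piece.ident)
  have hgs : Smooth g := fun n => (hs n).add (contDiff_const.mul contDiff_id)
  have hgper : ∀ x, g (x + p) = g x := by
    intro x
    have := hper x
    simp only [hg]
    have e : ((p : ℤ) : ℝ) = (p : ℝ) := by norm_cast
    rw [e] at this
    have e2 : (m : ℝ) / p * p = m := div_mul_cancel₀ _ hpr.ne'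
    linarith [mul_add ((m : ℝ) / p) x p]
  have hgpern : ∀ (n : ℕ) x, g (x + n * p) = g x := by
    intro n
    induction n with
    | zero => intro x; simp
    | succ n ih =>
      intro x
      have : x + ((n + 1 : ℕ) : ℝ) * p = (x + n * p) + p := by push_cast; ring
      rw [this, hgper, ih]
  obtain ⟨P, hP, hP0⟩ := hgp.algebraic 0
  have hH : ∀ x, P.evalEval x (g x) = 0 := by
    refine (hgp.evalEval P).zero (smooth_comp_evalEval hgs P) (1 / 2) ?_
    have h1 : (0 : ℝ) < 1 / 2 := by norm_num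
    have h2 : (1 / 2 : ℝ) < 1 := by norm_num
    filter_upwards [Ioo_mem_nhds h1 h2] with x hx
    exact hP0 x (by simpa using hx.1.le) (by simpa using hx.2)
  have hroot : ∀ x, Polynomial.eval (Polynomial.C (g x)) P = 0 := by
    intro x
    refine Polynomial.eq_zero_of_infinite_isRoot _ ?_
    refine Set.infinite_of_injective_forall_mem (f := fun n : ℕ => x + n * p) ?_ fun n => ?_
    · intro a b hab
      have h1 : (a : ℝ) * p = b * p := by
        have : x + (a : ℝ) * p = x + b * p := hab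
        linarith
      have h2 := mul_right_cancel₀ hpr.ne' h1
      exact_mod_cast h2
    · show Polynomial.eval (x + n * p) (Polynomial.eval (Polynomial.C (g x)) P) = 0
      have := hH (x + n * p)
      rw [hgpern n x] at this
      exact this
  have hfin : (Set.range g).Finite := by
    have h1 : {y : ℝ | Polynomial.eval (Polynomial.C y) P = 0}.Finite := by
      have h2 : {z : Polynomial ℝ | P.IsRoot z}.Finite := Polynomial.finite_setOfPred_isRoot hP
      exact h2.preimage (Polynomial.C_injective.injOn)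
    refine h1.subset ?_
    rintro _ ⟨x, rfl⟩
    exact hroot x
  have hconst : ∀ a b, g a = g b := by
    have hlt : ∀ a b, ¬ g a < g b := by
      intro a b hab
      have h1 : Set.Icc (g a) (g b) ⊆ Set.range g := intermediate_value_univ a b hgs.continuous
      exact (Set.Icc_infinite hab) (hfin.subset h1)
    intro a b
    exact le_antisymm (not_lt.1 (hlt b a)) (not_lt.1 (hlt a b))
  refine ⟨(m : ℝ) / p, g 0, fun x => ?_⟩
  have := hconst x 0
  have h2 : g x = f x + (-((m : ℝ) / p)) * x := rfl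
  rw [← this, h2]
  ring

end Pool.Agent.X223.WAL
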